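import Pool.Agent.H98.SG.Fin

/-!
Levy collapse and the unbalanced polarized relation at singular cardinals.
-/

open Cardinal Ordinal Set Pool.Agent.H98.Polar

namespace Pool.Agent.Results.MP_e35e92_lc.EverySingular

/-- Let `κ` be a singular cardinal and `μ ≥ κ`. Every condition of `Levy κ μ` forces the failure
of `(κ, ω) → (κ α; ω ω)` for every ordinal `α ≥ 1`. -/
theorem result (κ : Cardinal.{0}) (hinf : ℵ₀ ≤ κ) (hsing : κ.ord.cof < κ)
    (μ : Cardinal.{0}) (hμ : κ ≤ μ) (α : Ordinal.{0}) (hα : 1 ≤ α) (p : Levy κ μ) :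
    fNot (fUnbalanced κ α) p :=
  fails_singular rfl (Ordinal.aleph0_le_cof.2 (Cardinal.isSuccLimit_ord hinf)) hsing hμ hα p

end Pool.Agent.Results.MP_e35e92_lc.EverySingular
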