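import Pool.Agent.H98.WC.Main

/-!
Levy collapse and the unbalanced polarized relation: the threshold ordinal.
-/

open Cardinal Ordinal Set Pool.Agent.H98.Polar

namespace Pool.Agent.Results.MP_e35e92_lc.GameThreshold

/-- For every regular uncountable `κ` there is an ordinal `t ≤ κ` such that
* for `α < κ` we have `t ≤ α` iff Builder wins the game `G(κ, α)` in `V`, and this is so if
  `(κ, ω) → (κ α; ω ω)` fails in `V`;
* for `α < t` and all regular `κ' ≥ κ`, every condition of every `< κ'`-closed poset forces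
  `(κ', ω) → (κ' α; ω ω)`;
* for `α ≥ t` and all regular uncountable `κ' ≤ κ` with `α < κ'`, every condition of
  `Levy κ' μ`, `μ ≥ 2`, forces the failure of `(κ', ω) → (κ' α; ω ω)`;
* if `t < κ`, then `cf t ≥ h` and `t` is additively indecomposable. -/
theorem result (κ : Cardinal.{0}) (hreg : κ.IsRegular) (hunc : ℵ₀ < κ) :
    ∃ t ≤ κ.ord,
      (∀ α < κ.ord, (t ≤ α ↔ BuilderWins κ α) ∧ (¬ Unbalanced κ α → t ≤ α)) ∧
      (∀ α < t, ∀ κ' : Cardinal.{0}, κ'.IsRegular → κ ≤ κ' → ∀ (R : Type) [Preorder R],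
        ClosedPoset κ' R → ∀ p : R, fUnbalanced κ' α p) ∧
      (∀ α, t ≤ α → ∀ κ' : Cardinal.{0}, κ'.IsRegular → ℵ₀ < κ' → κ' ≤ κ → α < κ'.ord →
        ∀ μ : Cardinal.{0}, 2 ≤ μ → ∀ p : Levy κ' μ, fNot (fUnbalanced κ' α) p) ∧
      (t < κ.ord → hNumber ≤ t.cof ∧ ∀ β < t, ∀ γ < t, β + γ < t) :=
  exists_threshold hreg hunc

end Pool.Agent.Results.MP_e35e92_lc.GameThreshold
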