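import Pool.Agent.H98.PolarMain

/-!
Levy collapse and the unbalanced polarized relation: the relation is forced whenever
`|α| < h` or `r < κ`.
-/

open Cardinal Ordinal Set Pool.Agent.H98.Polar

namespace Pool.Agent.Results.MP_e35e92_lc.HReapingWindow

theorem result (κ : Cardinal.{0}) (hreg : κ.IsRegular) (hunc : ℵ₀ < κ)
    (α : Ordinal.{0}) (hα : α < κ.ord) (h : α.card < hNumber ∨ rNumber < κ)
    (μ : Cardinal.{0}) (p : Levy κ μ) : fUnbalanced κ α p :=
  main hreg hunc (levy_closed hreg μ) hα h p

end Pool.Agent.Results.MP_e35e92_lc.HReapingWindow
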