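import Pool.Agent.H98.PolarLuzin2

/-!
Levy collapse and the unbalanced polarized relation: a sufficient condition in `V` for the
failure of the relation in the extension.
-/

open Cardinal Ordinal Set Pool.Agent.H98.Polar

namespace Pool.Agent.Results.MP_e35e92_lc.LuzinFailure

theorem result (κ ν : Cardinal.{0}) (hreg : κ.IsRegular) (hunc : ℵ₀ < κ)
    (h : (∃ (Γ : Type) (X : Γ → Set (Set ℕ)), LuzinSplitting κ ν X) ∨
      (κ ≤ covMeagre ∧ ∃ f : κ.ord.ToType → ℕ → ℕ, StronglyUnbounded ν f))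
    (α : Ordinal.{0}) (hα : α < κ.ord) (hν : ν ≤ α.card) (p : Levy κ continuum.{0}) :
    fNot (fUnbalanced κ α) p := by
  rcases h with ⟨Γ, X, hX⟩ | ⟨hκ, f, hf⟩
  · exact main_luzin hreg hunc hX hα hν p
  · exact main_luzin hreg hunc (luzin_of_unbounded hκ (by rw [mk_toType, card_ord]) f hf)
      hα hν p

end Pool.Agent.Results.MP_e35e92_lc.LuzinFailure
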